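import Mathlib

/-!
# Positive-primitive formulas, Mittag-Leffler modules, pure submodules
-/

set_option autoImplicit false

universe u

namespace Pool.Agent.Q11.ML

/-- A pp formula over `R` with `n` free variables `x`: there is `y` with `A x + B y = 0`. -/
structure PP (R : Type u) (n : ℕ) where
  /-- the number of bound variables -/
  m : ℕ
  /-- the number of equations -/
  k : ℕ
  A : Fin k → Fin n → R
  B : Fin k → Fin m → R

variable {R : Type u} [Ring R]

/-- The tuple `x` of elements of `M` satisfies the pp formula. -/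
def PP.Holds {n : ℕ} (φ : PP R n) {M : Type u} [AddCommGroup M] [Module R M] (x : Fin n → M) :
    Prop :=
  ∃ y : Fin φ.m → M, ∀ i, ∑ j, φ.A i j • x j + ∑ j, φ.B i j • y j = 0

/-- The pp formula `φ` implies the pp formula `ψ` in every module. -/
def PP.Imp {n : ℕ} (φ ψ : PP R n) : Prop :=
  ∀ (N : Type u) [AddCommGroup N] [Module R N] (x : Fin n → N), φ.Holds x → ψ.Holds x

variable (R) in
/-- Mittag-Leffler modules: the pp type of every finite tuple is finitely generated. -/
def IsML (M : Type u) [AddCommGroup M] [Module R M] : Prop :=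
  ∀ (n : ℕ) (a : Fin n → M), ∃ φ : PP R n, φ.Holds a ∧ ∀ ψ : PP R n, ψ.Holds a → φ.Imp ψ

section

variable {M N : Type u} [AddCommGroup M] [Module R M] [AddCommGroup N] [Module R N]

/-- pp formulas from arbitrary finite index types. -/
lemma exists_pp {n : ℕ} {μ κ : Type*} [Fintype μ] [Fintype κ] (A : κ → Fin n → R)
    (B : κ → μ → R) : ∃ φ : PP R n, ∀ (N : Type u) [AddCommGroup N] [Module R N] (x : Fin n → N),
      φ.Holds x ↔ ∃ y : μ → N, ∀ i, ∑ j, A i j • x j + ∑ j, B i j • y j = 0 := by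
  let e := Fintype.equivFin μ
  let e' := Fintype.equivFin κ
  refine ⟨⟨Fintype.card μ, Fintype.card κ, fun i j => A (e'.symm i) j,
    fun i j => B (e'.symm i) (e.symm j)⟩, ?_⟩
  intro N _ _ x
  constructor
  · rintro ⟨y, hy⟩
    refine ⟨fun j => y (e j), fun i => ?_⟩
    have := hy (e' i)
    simp only [Equiv.symm_apply_apply] at this
    rw [← this]
    congr 1
    rw [← e.sum_comp]
    simp only [Equiv.symm_apply_apply]
  · rintro ⟨y, hy⟩
    refine ⟨fun j => y (e.symm j), fun i => ?_⟩
    have := hy (e'.symm i)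
    rw [← this]
    congr 1
    exact (e.symm.sum_comp (fun j => B (e'.symm i) j • y j))

lemma PP.Holds.map {n : ℕ} {φ : PP R n} {x : Fin n → M} (h : φ.Holds x) (f : M →ₗ[R] N) :
    φ.Holds (fun i => f (x i)) := by
  obtain ⟨y, hy⟩ := h
  refine ⟨fun j => f (y j), fun i => ?_⟩
  have := congrArg f (hy i)
  simpa [map_add, map_sum] using this

/-- Pure submodules. -/
def IsPure (P : Submodule R M) : Prop :=
  ∀ (k m : ℕ) (B : Fin k → Fin m → R) (y : Fin m → M), (∀ i, ∑ j, B i j • y j ∈ P) →
    ∃ z : Fin m → M, (∀ j, z j ∈ P) ∧ ∀ i, ∑ j, B i j • z j = ∑ j, B i j • y j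

lemma IsPure.gen {P : Submodule R M} (hP : IsPure P) {κ μ : Type*} [Fintype κ] [Fintype μ]
    (B : κ → μ → R) (y : μ → M) (h : ∀ i, ∑ j, B i j • y j ∈ P) :
    ∃ z : μ → M, (∀ j, z j ∈ P) ∧ ∀ i, ∑ j, B i j • z j = ∑ j, B i j • y j := by
  let e := Fintype.equivFin μ
  let e' := Fintype.equivFin κ
  obtain ⟨z, hz, hz'⟩ := hP _ _ (fun i j => B (e'.symm i) (e.symm j)) (fun j => y (e.symm j)) (by
    intro i
    have := h (e'.symm i)
    rwa [← e.symm.sum_comp] at this)
  refine ⟨fun j => z (e j), fun j => hz _, fun i => ?_⟩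
  have := hz' (e' i)
  simp only [Equiv.symm_apply_apply] at this
  rw [← e.symm.sum_comp, ← e.symm.sum_comp (fun j => B i j • y j)]
  simpa using this

/-- Lifting pp formulas along pure quotients. -/
lemma IsPure.lift {P : Submodule R M} (hP : IsPure P) {n : ℕ} {φ : PP R n} {x : Fin n → M ⧸ P}
    (h : φ.Holds x) : ∃ z : Fin n → M, (∀ i, P.mkQ (z i) = x i) ∧ φ.Holds z := by
  classical
  obtain ⟨y, hy⟩ := h
  choose x' hx' using fun i => P.mkQ_surjective (x i)
  choose y' hy' using fun i => P.mkQ_surjective (y i)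
  obtain ⟨z, hz, hz'⟩ := hP.gen (κ := Fin φ.k) (μ := Fin n ⊕ Fin φ.m)
    (fun i => Sum.elim (φ.A i) (φ.B i)) (Sum.elim x' y') (by
      intro i
      rw [Fintype.sum_sum_type]
      simp only [Sum.elim_inl, Sum.elim_inr]
      rw [← Submodule.ker_mkQ P, LinearMap.mem_ker, map_add, map_sum, map_sum]
      simp only [map_smul, hx', hy']
      exact hy i)
  refine ⟨fun j => x' j - z (Sum.inl j), ?_, fun j => y' j - z (Sum.inr j), ?_⟩
  · intro i
    rw [map_sub, hx']
    have : P.mkQ (z (Sum.inl i)) = 0 := by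
      rw [← LinearMap.mem_ker, Submodule.ker_mkQ]; exact hz _
    rw [this, sub_zero]
  · intro i
    have := hz' i
    rw [Fintype.sum_sum_type, Fintype.sum_sum_type] at this
    simp only [Sum.elim_inl, Sum.elim_inr] at this
    simp only [smul_sub, Finset.sum_sub_distrib]
    rw [sub_add_sub_comm, this, sub_self]

end

end Pool.Agent.Q11.ML
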