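import Mathlib
import Pool.Agent.Q11.ML.PP

/-!
# Direct limits and the factorization property
-/

set_option autoImplicit false

universe u

namespace Pool.Agent.Q11.ML

variable {R : Type u} [Ring R]

/-- `M` is (isomorphic to) a direct limit over a directed set of modules from the class `𝒜`. -/
def InLim (𝒜 : ModuleCat.{u} R → Prop) (M : Type u) [AddCommGroup M] [Module R M] : Prop :=
  ∃ (ι : Type u) (_ : Preorder ι) (_ : IsDirectedOrder ι) (_ : Nonempty ι) (_ : DecidableEq ι)
    (G : ι → ModuleCat.{u} R) (f : ∀ i j, i ≤ j → (G i →ₗ[R] G j))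
    (_ : DirectedSystem (fun i => G i) (fun i j h => f i j h)),
    (∀ i, 𝒜 (G i)) ∧ Nonempty (M ≃ₗ[R] Module.DirectLimit (fun i => G i) f)

/-- Finite systems of equations solvable in `M` are solvable through members of `𝒜`. -/
def FC (𝒜 : ModuleCat.{u} R → Prop) (M : Type u) [AddCommGroup M] [Module R M] : Prop :=
  ∀ (k m : ℕ) (B : Fin k → Fin m → R) (x : Fin m → M), (∀ i, ∑ j, B i j • x j = 0) →
    ∃ (A : ModuleCat.{u} R) (_ : 𝒜 A) (a : Fin m → A) (h : A →ₗ[R] M),
      (∀ i, ∑ j, B i j • a j = 0) ∧ ∀ j, h (a j) = x j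

variable {𝒜 : ModuleCat.{u} R → Prop} {M : Type u} [AddCommGroup M] [Module R M]

lemma FC.gen (hM : FC 𝒜 M) {κ μ : Type*} [Fintype κ] [Fintype μ] (B : κ → μ → R) (x : μ → M)
    (hx : ∀ i, ∑ j, B i j • x j = 0) :
    ∃ (A : ModuleCat.{u} R) (_ : 𝒜 A) (a : μ → A) (h : A →ₗ[R] M),
      (∀ i, ∑ j, B i j • a j = 0) ∧ ∀ j, h (a j) = x j := by
  let e := Fintype.equivFin μ
  let e' := Fintype.equivFin κ
  obtain ⟨A, hA, a, h, ha, hh⟩ := hM _ _ (fun i j => B (e'.symm i) (e.symm j))
    (fun j => x (e.symm j)) (by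
      intro i
      have := hx (e'.symm i)
      rwa [← e.symm.sum_comp] at this)
  refine ⟨A, hA, fun j => a (e j), h, fun i => ?_, fun j => ?_⟩
  · have := ha (e' i)
    simp only [Equiv.symm_apply_apply] at this
    rw [← e.symm.sum_comp]
    simpa using this
  · rw [hh, Equiv.symm_apply_apply]

/-- The factorization property passes to pure quotients. -/
lemma FC.quot (hM : FC 𝒜 M) {P : Submodule R M} (hP : IsPure P) : FC 𝒜 (M ⧸ P) := by
  intro k m B x hx
  choose x' hx' using fun i => P.mkQ_surjective (x i)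
  obtain ⟨z, hz, hz'⟩ := hP k m B x' (by
    intro i
    rw [← Submodule.ker_mkQ P, LinearMap.mem_ker, map_sum]
    simp only [map_smul, hx']
    exact hx i)
  obtain ⟨A, hA, a, h, ha, hh⟩ := hM k m B (fun j => x' j - z j) (by
    intro i
    simp only [smul_sub, Finset.sum_sub_distrib]
    rw [hz' i, sub_self])
  refine ⟨A, hA, a, P.mkQ ∘ₗ h, ha, fun j => ?_⟩
  rw [LinearMap.comp_apply, hh, map_sub, hx']
  have : P.mkQ (z j) = 0 := by rw [← LinearMap.mem_ker, Submodule.ker_mkQ]; exact hz _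
  rw [this, sub_zero]

section limit

variable {ι : Type u} [Preorder ι] [IsDirectedOrder ι] [DecidableEq ι] {G : ι → ModuleCat.{u} R}
  {f : ∀ i j, i ≤ j → (G i →ₗ[R] G j)} [DirectedSystem (fun i => G i) (fun i j h => f i j h)]


lemma zero_of_lim {κ : Type*} [Finite κ] {i : ι} (v : κ → G i)
    (h : ∀ k, Module.DirectLimit.of R ι (fun i => G i) f i (v k) = 0) :
    ∃ (j : ι) (hij : i ≤ j), ∀ k, f i j hij (v k) = 0 := by
  classical
  choose j hj hv using fun k => Module.DirectLimit.of.zero_exact (h k)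
  have : Nonempty ι := ⟨i⟩
  obtain ⟨l, hl⟩ := Finite.exists_le j
  obtain ⟨l', h1, h2⟩ := exists_ge_ge l i
  refine ⟨l', h2, fun k => ?_⟩
  have h3 : j k ≤ l' := (hl k).trans h1
  have h4 := DirectedSystem.map_map' f (hj k) h3 (v k)
  rw [← h4, hv, map_zero]

lemma fc_lim [Nonempty ι] (hG : ∀ i, 𝒜 (G i)) : FC 𝒜 (Module.DirectLimit (fun i => G i) f) := by
  classical
  intro k m B x hx
  choose i g hg using fun j => Module.DirectLimit.exists_of (x j)
  obtain ⟨l, hl⟩ := Finite.exists_le i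
  set a : Fin m → G l := fun j => f (i j) l (hl j) (g j) with ha
  have hax : ∀ j, Module.DirectLimit.of R ι (fun i => G i) f l (a j) = x j := by
    intro j
    rw [ha]
    simp only
    rw [Module.DirectLimit.of_f, hg]
  obtain ⟨l', h1, h2⟩ := zero_of_lim (f := f) (fun i => ∑ j, B i j • a j) (by
    intro i
    rw [map_sum]
    simp only [map_smul, hax]
    exact hx i)
  refine ⟨G l', hG l', fun j => f l l' h1 (a j), Module.DirectLimit.of R ι (fun i => G i) f l', ?_, ?_⟩
  · intro i
    have := h2 i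
    rw [map_sum] at this
    simpa only [map_smul] using this
  · intro j
    rw [Module.DirectLimit.of_f, hax]

/-- A pp formula which holds in the limit holds at some stage. -/
lemma holds_lim {n : ℕ} {φ : PP R n} {i : ι} (a : Fin n → G i)
    (h : φ.Holds fun k => Module.DirectLimit.of R ι (fun i => G i) f i (a k)) :
    ∃ (j : ι) (hij : i ≤ j), φ.Holds fun k => f i j hij (a k) := by
  classical
  have : Nonempty ι := ⟨i⟩
  obtain ⟨y, hy⟩ := h
  choose i' g hg using fun j => Module.DirectLimit.exists_of (y j)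
  obtain ⟨l₀, hl₀⟩ := Finite.exists_le i'
  obtain ⟨l, h1, h2⟩ := exists_ge_ge l₀ i
  have hl : ∀ j, i' j ≤ l := fun j => (hl₀ j).trans h1
  set y' : Fin φ.m → G l := fun j => f (i' j) l (hl j) (g j) with hy'
  have hyy : ∀ j, Module.DirectLimit.of R ι (fun i => G i) f l (y' j) = y j := by
    intro j
    rw [hy']
    simp only
    rw [Module.DirectLimit.of_f, hg]
  obtain ⟨l', h3, h4⟩ := zero_of_lim (f := f)
    (fun r => ∑ j, φ.A r j • f i l h2 (a j) + ∑ j, φ.B r j • y' j) (by
    intro r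
    rw [map_add, map_sum, map_sum]
    simp only [map_smul, hyy, Module.DirectLimit.of_f]
    exact hy r)
  refine ⟨l', h2.trans h3, fun j => f l l' h3 (y' j), fun r => ?_⟩
  have := h4 r
  rw [map_add, map_sum, map_sum] at this
  simp only [map_smul] at this
  rw [← this]
  congr 1
  refine Finset.sum_congr rfl fun j _ => ?_
  have h5 := DirectedSystem.map_map' f h2 h3 (a j)
  rw [h5]

end limit

lemma fc_of_inLim (h : InLim 𝒜 M) : FC 𝒜 M := by
  obtain ⟨ι, _, _, _, _, G, f, _, hG, ⟨e⟩⟩ := h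
  intro k m B x hx
  obtain ⟨A, hA, a, h, ha, hh⟩ := fc_lim (f := f) hG k m B (fun j => e (x j)) (by
    intro i
    have := congrArg e (hx i)
    rw [map_sum, map_zero] at this
    simpa only [map_smul] using this)
  refine ⟨A, hA, a, e.symm.toLinearMap ∘ₗ h, ha, fun j => ?_⟩
  rw [LinearMap.comp_apply, hh, LinearEquiv.coe_coe, e.symm_apply_apply]

end Pool.Agent.Q11.ML
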