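import Mathlib
import Pool.Agent.Q11.ML.Lim

/-!
# Modules with the factorization property are Mittag-Leffler when countable limits are
-/

set_option autoImplicit false

universe u

namespace Pool.Agent.Q11.ML

variable {R : Type u} [Ring R]

/-- Presentations of finitely presented modules. -/
lemma fp_pres (A : Type u) [AddCommGroup A] [Module R A] [Module.FinitePresentation R A] :
    ∃ (n m : ℕ) (g : Fin n → A) (D : Fin m → Fin n → R), (∀ i, ∑ j, D i j • g j = 0) ∧
      (∀ a, ∃ L : Fin n → R, a = ∑ j, L j • g j) ∧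
      ∀ (N : Type u) [AddCommGroup N] [Module R N] (y : Fin n → N),
        (∀ i, ∑ j, D i j • y j = 0) → ∃ t : A →ₗ[R] N, ∀ j, t (g j) = y j := by
  classical
  obtain ⟨n, m, f, g, hf, hgf⟩ := Module.FinitePresentation.exists_fin' (R := R) (M := A)
  have hsum : ∀ v : Fin n → R, v = ∑ j, v j • Pi.single j (1 : R) := by
    intro v
    exact (pi_eq_sum_univ' v).trans (Finset.sum_congr rfl fun j _ => by congr 1)
  have hsum' : ∀ v : Fin m → R, v = ∑ j, v j • Pi.single j (1 : R) := by
    intro v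
    exact (pi_eq_sum_univ' v).trans (Finset.sum_congr rfl fun j _ => by congr 1)
  refine ⟨n, m, fun j => f (Pi.single j 1), fun i j => g (Pi.single i 1) j, ?_, ?_, ?_⟩
  · intro i
    have h1 : f (g (Pi.single i 1)) = 0 := (hgf _).mpr ⟨_, rfl⟩
    rw [hsum (g (Pi.single i 1)), map_sum] at h1
    simpa only [map_smul] using h1
  · intro a
    obtain ⟨v, rfl⟩ := hf a
    refine ⟨v, ?_⟩
    conv_lhs => rw [hsum v, map_sum]
    simp only [map_smul]
  · intro N _ _ y hy
    let Y : (Fin n → R) →ₗ[R] N := Fintype.linearCombination R y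
    have hY : ∀ v, Y v = ∑ j, v j • y j := fun v => Fintype.linearCombination_apply R y v
    have hker : LinearMap.ker f ≤ LinearMap.ker Y := by
      intro v hv
      rw [LinearMap.mem_ker] at hv ⊢
      obtain ⟨w, rfl⟩ := (hgf v).mp hv
      rw [hsum' w, map_sum, map_sum]
      refine Finset.sum_eq_zero fun i _ => ?_
      rw [map_smul, map_smul, hY, hy i, smul_zero]
    let q := f.quotKerEquivOfSurjective hf
    refine ⟨(LinearMap.ker f).liftQ Y hker ∘ₗ q.symm.toLinearMap, fun j => ?_⟩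
    rw [LinearMap.comp_apply, LinearEquiv.coe_coe]
    have h1 : q.symm (f (Pi.single j 1)) = (LinearMap.ker f).mkQ (Pi.single j 1) := by
      rw [LinearEquiv.symm_apply_eq]
      rfl
    rw [h1, Submodule.mkQ_apply, Submodule.liftQ_apply, hY, Finset.sum_eq_single j]
    · rw [Pi.single_eq_same, one_smul]
    · intro k _ hk
      rw [Pi.single_eq_of_ne hk, zero_smul]
    · intro h; exact absurd (Finset.mem_univ j) h

/-- The pp type of a tuple in a finitely presented module is finitely generated. -/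
lemma fp_gen (A : Type u) [AddCommGroup A] [Module R A] [Module.FinitePresentation R A] {n : ℕ}
    (a : Fin n → A) : ∃ φ : PP R n, φ.Holds a ∧ ∀ ψ : PP R n, ψ.Holds a → φ.Imp ψ := by
  classical
  obtain ⟨l, q, g, D, hg, hgen, huniv⟩ := fp_pres (R := R) A
  choose L hL using fun i => hgen (a i)
  obtain ⟨φ, hφ⟩ := exists_pp (R := R) (n := n) (μ := Fin l) (κ := Fin q ⊕ Fin n)
    (Sum.elim (fun _ _ => 0) (fun i j => if j = i then -1 else 0))
    (Sum.elim D L)
  refine ⟨φ, ?_, ?_⟩
  · rw [hφ]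
    refine ⟨g, ?_⟩
    rintro (i | i)
    · simp only [Sum.elim_inl, zero_smul, Finset.sum_const_zero, zero_add]
      exact hg i
    · simp only [Sum.elim_inr, ite_smul, zero_smul, neg_smul, one_smul]
      rw [Finset.sum_ite_eq' Finset.univ i, if_pos (Finset.mem_univ i), ← hL i, neg_add_cancel]
  · intro ψ hψ N _ _ x hx
    rw [hφ] at hx
    obtain ⟨y, hy⟩ := hx
    obtain ⟨t, ht⟩ := huniv N y (fun i => by
      have := hy (Sum.inl i)
      simpa only [Sum.elim_inl, zero_smul, Finset.sum_const_zero, zero_add] using this)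
    have hx : ∀ i, t (a i) = x i := by
      intro i
      have h1 := hy (Sum.inr i)
      simp only [Sum.elim_inr, ite_smul, zero_smul, neg_smul, one_smul] at h1
      rw [Finset.sum_ite_eq' Finset.univ i, if_pos (Finset.mem_univ i)] at h1
      rw [hL i, map_sum]
      simp only [map_smul, ht]
      exact (neg_add_eq_zero.mp h1).symm
    have h2 := hψ.map t
    simp only [hx] at h2
    exact h2

variable {𝒜 : ModuleCat.{u} R → Prop} {M : Type u} [AddCommGroup M] [Module R M]

/-- A member of `𝒜` with a tuple over `x`. -/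
structure St (𝒜 : ModuleCat.{u} R → Prop) {n : ℕ} (x : Fin n → M) where
  A : ModuleCat.{u} R
  hA : 𝒜 A
  a : Fin n → A
  h : A →ₗ[R] M
  hx : ∀ i, h (a i) = x i

lemma step (hfp : ∀ A, 𝒜 A → Module.FinitePresentation R A) (hM : FC 𝒜 M) {n : ℕ} {x : Fin n → M}
    (s : St 𝒜 x) {ψ : PP R n} (hψ : ψ.Holds x) :
    ∃ (s' : St 𝒜 x) (t : s.A →ₗ[R] s'.A), (∀ i, t (s.a i) = s'.a i) ∧ ψ.Holds s'.a := by
  classical
  have := hfp s.A s.hA
  obtain ⟨l, q, g, D, hg, hgen, huniv⟩ := fp_pres (R := R) s.A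
  choose L hL using fun i => hgen (s.a i)
  obtain ⟨y, hy⟩ := hψ
  obtain ⟨A', hA', a', h', ha', hh'⟩ := hM.gen (κ := Fin q ⊕ Fin ψ.k) (μ := Fin l ⊕ Fin ψ.m)
    (Sum.elim (fun i => Sum.elim (D i) (fun _ => 0))
      (fun i => Sum.elim (fun j => ∑ p, ψ.A i p * L p j) (ψ.B i)))
    (Sum.elim (fun j => s.h (g j)) y) (by
      rintro (i | i)
      · simp only [Fintype.sum_sum_type, Sum.elim_inl, Sum.elim_inr, zero_smul,
          Finset.sum_const_zero, add_zero]
        have := congrArg s.h (hg i)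
        rw [map_sum, map_zero] at this
        simpa only [map_smul] using this
      · simp only [Fintype.sum_sum_type, Sum.elim_inl, Sum.elim_inr]
        rw [← hy i]
        congr 1
        simp only [Finset.sum_smul]
        rw [Finset.sum_comm]
        refine Finset.sum_congr rfl fun p _ => ?_
        rw [← s.hx p, hL p, map_sum, Finset.smul_sum]
        refine Finset.sum_congr rfl fun j _ => ?_
        rw [map_smul, smul_smul])
  obtain ⟨t, ht⟩ := huniv A' (fun j => a' (Sum.inl j)) (fun i => by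
    have := ha' (Sum.inl i)
    simpa only [Fintype.sum_sum_type, Sum.elim_inl, Sum.elim_inr, zero_smul,
      Finset.sum_const_zero, add_zero] using this)
  refine ⟨⟨A', hA', fun i => t (s.a i), h', fun i => ?_⟩, t, fun i => rfl, ?_⟩
  · rw [hL i, map_sum, map_sum, ← s.hx i, hL i, map_sum]
    refine Finset.sum_congr rfl fun j _ => ?_
    rw [map_smul, map_smul, map_smul, ht, hh']
    rfl
  · refine ⟨fun j => a' (Sum.inr j), fun i => ?_⟩
    have h1 := ha' (Sum.inr i)
    simp only [Fintype.sum_sum_type, Sum.elim_inl, Sum.elim_inr] at h1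
    rw [← h1]
    congr 1
    simp only [Finset.sum_smul]
    rw [Finset.sum_comm]
    refine Finset.sum_congr rfl fun p _ => ?_
    rw [hL p, map_sum, Finset.smul_sum]
    refine Finset.sum_congr rfl fun j _ => ?_
    rw [map_smul, smul_smul, ht]

/-- Composites in a sequence of modules. -/
def seqMap (G : ℕ → ModuleCat.{u} R) (t : ∀ k, G k →ₗ[R] G (k + 1)) (i j : ℕ) (h : i ≤ j) :
    G i →ₗ[R] G j :=
  Nat.leRec (motive := fun j _ => G i →ₗ[R] G j) LinearMap.id (fun j _ g => (t j).comp g) h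

lemma seqMap_self (G : ℕ → ModuleCat.{u} R) (t : ∀ k, G k →ₗ[R] G (k + 1)) (i : ℕ) :
    seqMap G t i i le_rfl = LinearMap.id := by
  unfold seqMap
  rw [Nat.leRec_self]

lemma seqMap_succ (G : ℕ → ModuleCat.{u} R) (t : ∀ k, G k →ₗ[R] G (k + 1)) (i j : ℕ) (h : i ≤ j) :
    seqMap G t i (j + 1) (h.trans (Nat.le_succ j)) = (t j).comp (seqMap G t i j h) := by
  unfold seqMap
  rw [Nat.leRec_succ]

lemma seqMap_trans (G : ℕ → ModuleCat.{u} R) (t : ∀ k, G k →ₗ[R] G (k + 1)) (i j k : ℕ)
    (h : i ≤ j) (h' : j ≤ k) (x : G i) :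
    seqMap G t j k h' (seqMap G t i j h x) = seqMap G t i k (h.trans h') x := by
  induction k, h' using Nat.le_induction with
  | base => rw [seqMap_self]; rfl
  | succ k hk ih =>
    rw [seqMap_succ G t j k hk, seqMap_succ G t i k (h.trans hk), LinearMap.comp_apply,
      LinearMap.comp_apply, ih]

/-- The limit of a sequence of members of `𝒜`. -/
theorem isML_of_FC (hfp : ∀ A, 𝒜 A → Module.FinitePresentation R A)
    (hML : ∀ M : ModuleCat.{u} R, InLim 𝒜 M → IsML R M) (hM : FC 𝒜 M) : IsML R M := by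
  classical
  intro n x
  by_contra hcon
  push Not at hcon
  -- every state can be extended
  have hnext : ∀ s : St 𝒜 x, ∃ (s' : St 𝒜 x) (t : s.A →ₗ[R] s'.A) (ψ : PP R n),
      (∀ i, t (s.a i) = s'.a i) ∧ ¬ ψ.Holds s.a ∧ ψ.Holds s'.a := by
    intro s
    have := hfp s.A s.hA
    obtain ⟨φ, hφ, hφ'⟩ := fp_gen (R := R) s.A s.a
    have h1 := hφ.map s.h
    simp only [s.hx] at h1
    obtain ⟨ψ, hψ, hψ'⟩ := hcon φ h1
    obtain ⟨s', t, ht, hψs⟩ := step hfp hM s hψ
    exact ⟨s', t, ψ, ht, fun h => hψ' (hφ' ψ h), hψs⟩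
  choose nx tt ps h1 h2 h3 using hnext
  obtain ⟨A, hA, a, h, _, hh⟩ := hM 0 n (fun i => i.elim0) x (fun i => i.elim0)
  let s0 : St 𝒜 x := ⟨A, hA, a, h, hh⟩
  let st : ℕ → St 𝒜 x := fun k => Nat.rec s0 (fun _ s => nx s) k
  have hst : ∀ k, st (k + 1) = nx (st k) := fun k => rfl
  let G : ℕ → ModuleCat.{u} R := fun k => (st k).A
  let t : ∀ k, G k →ₗ[R] G (k + 1) := fun k => tt (st k)
  have ht : ∀ k i, t k ((st k).a i) = (st (k + 1)).a i := fun k i => h1 (st k) i
  -- the direct system over `ULift ℕ`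
  let G' : ULift.{u} ℕ → ModuleCat.{u} R := fun i => G i.down
  let F : ∀ i j : ULift.{u} ℕ, i ≤ j → (G' i →ₗ[R] G' j) := fun i j h =>
    seqMap G t i.down j.down h
  have hds : DirectedSystem (fun i => G' i) (fun i j h => F i j h) :=
    { map_self := fun i x => by
        change seqMap G t i.down i.down _ x = x
        rw [seqMap_self]; rfl
      map_map := fun k j i hij hjk x => seqMap_trans G t _ _ _ hij hjk x }
  have hdir : IsDirectedOrder (ULift.{u} ℕ) :=
    ⟨fun a b => ⟨⟨max a.down b.down⟩, le_max_left a.down b.down, le_max_right a.down b.down⟩⟩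
  have hlim : InLim 𝒜 (ModuleCat.of R (Module.DirectLimit (fun i => G' i) F)) :=
    ⟨ULift.{u} ℕ, inferInstance, hdir, inferInstance, inferInstance, G', F, hds,
      fun i => (st i.down).hA, ⟨LinearEquiv.refl R _⟩⟩
  have hFa : ∀ (k l : ℕ) (h : k ≤ l) (i : Fin n), seqMap G t k l h ((st k).a i) = (st l).a i := by
    intro k l h i
    induction l, h using Nat.le_induction with
    | base => rw [seqMap_self]; rfl
    | succ l hl ih => rw [seqMap_succ G t k l hl, LinearMap.comp_apply, ih, ht]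
  let o : ∀ k : ℕ, G k →ₗ[R] Module.DirectLimit (fun i => G' i) F := fun k =>
    Module.DirectLimit.of R (ULift.{u} ℕ) (fun i => G' i) F ⟨k⟩
  have ho : ∀ (k l : ℕ) (h : k ≤ l) (i : Fin n), o l ((st l).a i) = o k ((st k).a i) := by
    intro k l h i
    rw [← hFa k l h i]
    exact Module.DirectLimit.of_f (R := R) (G := fun i => G' i) (f := F) (i := ⟨k⟩) (j := ⟨l⟩)
      (hij := h)
  obtain ⟨χ, hχ, hχ'⟩ := hML _ hlim n (fun i => o 0 ((st 0).a i))
  obtain ⟨⟨l⟩, hl, hχl⟩ := holds_lim (f := F) (i := ⟨0⟩) (st 0).a hχ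
  have hχl' : χ.Holds (st l).a := by
    have : (fun i => F ⟨0⟩ ⟨l⟩ hl ((st 0).a i)) = (st l).a := by
      funext i
      exact hFa 0 l hl i
    rwa [this] at hχl
  have h4 : (ps (st l)).Holds (fun i => o 0 ((st 0).a i)) := by
    have h5 := (h3 (st l)).map (o (l + 1))
    have h6 : (fun i => o (l + 1) ((nx (st l)).a i)) = fun i => o 0 ((st 0).a i) := by
      funext i
      exact ho 0 (l + 1) (Nat.zero_le _) i
    rwa [h6] at h5
  exact h2 (st l) (hχ' _ h4 _ _ hχl')

end Pool.Agent.Q11.ML
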