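import Mathlib
import Pool.Agent.Q11.ML.FCML

/-!
# Countably generated pure submodules and the decomposition
-/

set_option autoImplicit false

universe u

namespace Pool.Agent.Q11.ML

variable {R : Type u} [Ring R] {M : Type u} [AddCommGroup M] [Module R M]

/-- Countably generated submodules. -/
def IsCG (P : Submodule R M) : Prop := ∃ s : Set M, s.Countable ∧ Submodule.span R s = P

lemma cl_countable {X : Type*} {T : Set X} (hT : T.Countable) (m : (Σ n, Fin n → X) → ℕ)
    (y : ∀ p, Fin (m p) → X) : (T ∪ ⋃ (n : ℕ), ⋃ (a : Fin n → T),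
      Set.range (y ⟨n, fun i => (a i : X)⟩)).Countable := by
  have : Countable T := hT.to_subtype
  refine hT.union (Set.countable_iUnion fun n => ?_)
  exact Set.countable_iUnion fun a => Set.countable_range _

/-- In a Mittag-Leffler module countable sets lie in countably generated pure submodules. -/
lemma exists_pure (hML : IsML R M) {S : Set M} (hS : S.Countable) :
    ∃ P : Submodule R M, S ⊆ P ∧ IsPure P ∧ ∃ c : ℕ → M, Submodule.span R (Set.range c) = P := by
  classical
  choose φ hφ hφ' using fun (p : Σ n, Fin n → M) => hML p.1 p.2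
  choose y hy using hφ
  let cl : Set M → Set M := fun T => T ∪ ⋃ (n : ℕ), ⋃ (a : Fin n → T),
    Set.range (y ⟨n, fun i => (a i : M)⟩)
  let T : ℕ → Set M := fun k => Nat.rec (motive := fun _ => Set M) (insert 0 S) (fun _ T => cl T) k
  have hTs : ∀ k, T (k + 1) = cl (T k) := fun k => rfl
  have hTc : ∀ k, (T k).Countable := by
    intro k
    induction k with
    | zero => exact hS.insert 0
    | succ k ih =>
      rw [hTs]
      exact cl_countable ih _ y
  have hTm : Monotone T := monotone_nat_of_le_succ fun k => Set.subset_union_left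
  let U : Set M := ⋃ k, T k
  have hUc : U.Countable := Set.countable_iUnion hTc
  have hU0 : (0 : M) ∈ U := Set.mem_iUnion.mpr ⟨0, Set.mem_insert _ _⟩
  have hUcl : ∀ (n : ℕ) (a : Fin n → M), (∀ i, a i ∈ U) → ∀ j, y ⟨n, a⟩ j ∈ U := by
    intro n a ha j
    choose k hk using fun i => Set.mem_iUnion.mp (ha i)
    obtain ⟨l, hl⟩ := Finite.exists_le k
    refine Set.mem_iUnion.mpr ⟨l + 1, ?_⟩
    rw [hTs]
    right
    refine Set.mem_iUnion.mpr ⟨n, Set.mem_iUnion.mpr ⟨fun i => ⟨a i, hTm (hl i) (hk i)⟩, j, rfl⟩⟩
  refine ⟨Submodule.span R U, ?_, ?_, ?_⟩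
  · intro s hs
    exact Submodule.subset_span (Set.mem_iUnion.mpr ⟨0, Set.mem_insert_of_mem _ hs⟩)
  · -- purity
    intro k m B x hx
    -- write the right hand sides with finitely many elements of `U`
    have hspan : ∀ v ∈ Submodule.span R U, ∃ (c : M →₀ R), (c.support : Set M) ⊆ U ∧
        (c.sum fun a r => r • a) = v := by
      intro v hv
      rw [Submodule.mem_span_iff_exists_finset_subset] at hv
      obtain ⟨f, t, ht, hf, hsum⟩ := hv
      refine ⟨Finsupp.onFinset t f (fun a ha => hf ha), ?_, ?_⟩
      · intro a ha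
        exact ht (Finsupp.support_onFinset_subset ha)
      · rw [Finsupp.onFinset_sum _ (fun a => zero_smul R a)]
        exact hsum
    choose c hc hcs using fun i => hspan _ (hx i)
    let t : Finset M := Finset.univ.biUnion fun i => (c i).support
    have htU : (t : Set M) ⊆ U := by
      intro a ha
      rw [Finset.mem_coe, Finset.mem_biUnion] at ha
      obtain ⟨i, _, hi⟩ := ha
      exact hc i hi
    let n := t.card
    let e : Fin n ≃ t := t.equivFin.symm
    let a : Fin n → M := fun i => (e i : M)
    have haU : ∀ i, a i ∈ U := fun i => htU (e i).2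
    have hrow : ∀ i, ∑ l, c i (a l) • a l = ∑ j, B i j • x j := by
      intro i
      rw [← hcs i, Finsupp.sum]
      have h1 : ∑ l, c i (a l) • a l = ∑ v : t, c i v • (v : M) :=
        e.sum_comp (fun v : t => c i v • (v : M))
      rw [h1, Finset.sum_coe_sort t (fun v => c i v • v)]
      symm
      refine Finset.sum_subset (Finset.subset_biUnion_of_mem (fun i => (c i).support)
        (Finset.mem_univ i)) ?_
      intro v _ hv
      rw [Finsupp.notMem_support_iff.mp hv, zero_smul]
    let ψ : PP R n := ⟨m, k, fun i l => - c i (a l), B⟩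
    have hψ : ψ.Holds a := by
      refine ⟨x, fun i => ?_⟩
      change ∑ l, -c i (a l) • a l + ∑ j, B i j • x j = 0
      simp only [neg_smul, Finset.sum_neg_distrib]
      rw [hrow i, neg_add_cancel]
    -- the generator formula holds in the span of `U`
    let aU : Fin n → Submodule.span R U := fun i => ⟨a i, Submodule.subset_span (haU i)⟩
    have hgen : (φ ⟨n, a⟩).Holds aU := by
      refine ⟨fun j => ⟨y ⟨n, a⟩ j, Submodule.subset_span (hUcl n a haU j)⟩, fun i => ?_⟩
      apply Subtype.ext
      have := hy ⟨n, a⟩ i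
      simpa [aU] using this
    obtain ⟨z, hz⟩ := hφ' ⟨n, a⟩ ψ hψ _ _ hgen
    refine ⟨fun j => (z j : M), fun j => (z j).2, fun i => ?_⟩
    have h1 := congrArg (Submodule.span R U).subtype (hz i)
    change (Submodule.span R U).subtype (∑ l, -c i (a l) • aU l + ∑ j, B i j • z j) = _ at h1
    simp only [neg_smul, Finset.sum_neg_distrib, map_add, map_neg, map_sum, map_smul, map_zero,
      Submodule.subtype_apply] at h1
    have h2 : ∑ l, c i (a l) • (aU l : M) = ∑ j, B i j • x j := hrow i
    rw [h2] at h1
    exact (neg_add_eq_zero.mp h1).symm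
  · obtain ⟨c, hc⟩ := hUc.exists_eq_range ⟨0, hU0⟩
    exact ⟨c, by rw [← hc]⟩

/-- Countable recursion for conditions on finite initial segments. -/
lemma exists_seq {X : Type*} [Nonempty X] (Q : ℕ → (ℕ → X) → Prop)
    (hdep : ∀ k x y, (∀ i < k, x i = y i) → Q k x → Q k y) (h0 : ∀ x, Q 0 x)
    (hstep : ∀ k x, Q k x → ∃ z, Q (k + 1) (Function.update x k z)) : ∃ x, ∀ k, Q k x := by
  classical
  choose! z hz using hstep
  let s : ℕ → (ℕ → X) := fun k => Nat.rec (fun _ => Classical.arbitrary X)
    (fun k x => Function.update x k (z k x)) k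
  have hs : ∀ k, s (k + 1) = Function.update (s k) k (z k (s k)) := fun k => rfl
  have hQ : ∀ k, Q k (s k) := by
    intro k
    induction k with
    | zero => exact h0 _
    | succ k ih => rw [hs]; exact hz k _ ih
  have hst : ∀ i k, i < k → s k i = s (i + 1) i := by
    intro i k hik
    induction k, hik using Nat.le_induction with
    | base => rfl
    | succ k hk ih =>
      rw [hs, Function.update_of_ne (by omega), ih]
  refine ⟨fun i => s (i + 1) i, fun k => ?_⟩
  exact hdep k (s k) _ (fun i hi => hst i k hi) (hQ k)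

/-- Countably generated submodules of Mittag-Leffler pure quotients lift. -/
lemma exists_section {P : Submodule R M} (hP : IsPure P) (hML : IsML R (M ⧸ P)) (c : ℕ → M ⧸ P) :
    ∃ x : ℕ → M, (∀ i, P.mkQ (x i) = c i) ∧
      LinearMap.ker (Finsupp.linearCombination R c) ≤
        LinearMap.ker (Finsupp.linearCombination R x) := by
  classical
  choose φ hφ hφ' using fun k => hML k (fun i : Fin k => c i)
  obtain ⟨x, hx⟩ := exists_seq (X := M) (fun k x => (∀ i < k, P.mkQ (x i) = c i) ∧
      (φ k).Holds (fun i : Fin k => x i)) (by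
    rintro k x y hxy ⟨h1, h2⟩
    refine ⟨fun i hi => by rw [← hxy i hi]; exact h1 i hi, ?_⟩
    have : (fun i : Fin k => y i) = fun i : Fin k => x i := funext fun i => (hxy i i.2).symm
    rw [this]; exact h2) (by
    intro x
    refine ⟨fun i hi => absurd hi (Nat.not_lt_zero i), ?_⟩
    obtain ⟨z, _, hz⟩ := hP.lift (hφ 0)
    have : (fun i : Fin 0 => x i) = z := Subsingleton.elim _ _
    rw [this]; exact hz) (by
    rintro k x ⟨hx, hxφ⟩
    -- the formula `∃ z, φ (k+1) (x, z)`
    obtain ⟨χ, hχ⟩ := exists_pp (R := R) (n := k) (μ := Fin (φ (k + 1)).m ⊕ Unit)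
      (κ := Fin (φ (k + 1)).k) (fun i j => (φ (k + 1)).A i j.castSucc)
      (fun i => Sum.elim ((φ (k + 1)).B i) (fun _ => (φ (k + 1)).A i (Fin.last k)))
    have hχiff : ∀ (N : Type u) [AddCommGroup N] [Module R N] (v : Fin k → N),
        χ.Holds v ↔ ∃ z : N, (φ (k + 1)).Holds (Fin.snoc (α := fun _ => N) v z) := by
      intro N _ _ v
      rw [hχ]
      constructor
      · rintro ⟨y, hy⟩
        refine ⟨y (Sum.inr ()), fun j => y (Sum.inl j), fun i => ?_⟩
        rw [Fin.sum_univ_castSucc]
        simp only [Fin.snoc_castSucc, Fin.snoc_last]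
        have := hy i
        rw [Fintype.sum_sum_type] at this
        simp only [Sum.elim_inl, Sum.elim_inr, Finset.univ_unique, Finset.sum_singleton] at this
        rw [← this]
        simp only [PUnit.default_eq_unit]
        abel
      · rintro ⟨z, y, hy⟩
        refine ⟨Sum.elim y (fun _ => z), fun i => ?_⟩
        have := hy i
        rw [Fin.sum_univ_castSucc] at this
        simp only [Fin.snoc_castSucc, Fin.snoc_last] at this
        rw [Fintype.sum_sum_type]
        simp only [Sum.elim_inl, Sum.elim_inr, Finset.univ_unique, Finset.sum_singleton]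
        rw [← this]
        abel
    have hsnoc : Fin.snoc (α := fun _ => M ⧸ P) (fun i : Fin k => c i) (c k) =
        fun i : Fin (k + 1) => c i := by
      funext i
      refine Fin.lastCases ?_ (fun i => ?_) i
      · rw [Fin.snoc_last, Fin.val_last]
      · rw [Fin.snoc_castSucc, Fin.val_castSucc]
    have h1 : χ.Holds (fun i : Fin k => c i) := by
      rw [hχiff]
      exact ⟨c k, by rw [hsnoc]; exact hφ (k + 1)⟩
    have h2 : χ.Holds (fun i : Fin k => x i) := hφ' k χ h1 M _ hxφ
    rw [hχiff] at h2
    obtain ⟨z, hz⟩ := h2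
    -- the correction
    have h3 : (φ (k + 1)).Holds (Fin.snoc (α := fun _ => M ⧸ P) (fun i : Fin k => c i)
        (P.mkQ z)) := by
      have := hz.map P.mkQ
      have e : (fun i => P.mkQ (Fin.snoc (α := fun _ => M) (fun i : Fin k => x i) z i)) =
          Fin.snoc (α := fun _ => M ⧸ P) (fun i : Fin k => c i) (P.mkQ z) := by
        funext i
        refine Fin.lastCases ?_ (fun i => ?_) i
        · rw [Fin.snoc_last, Fin.snoc_last]
        · rw [Fin.snoc_castSucc, Fin.snoc_castSucc]
          exact hx i i.2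
      rwa [e] at this
    obtain ⟨θ, hθ⟩ := exists_pp (R := R) (n := 1) (μ := Fin (φ (k + 1)).m)
      (κ := Fin (φ (k + 1)).k) (fun i _ => (φ (k + 1)).A i (Fin.last k)) ((φ (k + 1)).B)
    have h4 : θ.Holds (fun _ : Fin 1 => c k - P.mkQ z) := by
      rw [hθ]
      obtain ⟨y₁, hy₁⟩ := hφ (k + 1)
      obtain ⟨y₂, hy₂⟩ := h3
      refine ⟨fun j => y₁ j - y₂ j, fun i => ?_⟩
      have e1 := hy₁ i
      have e2 := hy₂ i
      rw [Fin.sum_univ_castSucc] at e1 e2
      simp only [Fin.snoc_castSucc, Fin.snoc_last, Fin.val_last, Fin.val_castSucc] at e1 e2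
      simp only [Finset.univ_unique, Finset.sum_singleton, smul_sub, Finset.sum_sub_distrib]
      have e3 := congrArg₂ (· - ·) e1 e2
      simp only [sub_self] at e3
      rw [← e3]
      abel
    obtain ⟨w, hw, hwθ⟩ := hP.lift h4
    rw [hθ] at hwθ
    refine ⟨z + w 0, ?_, ?_⟩
    · intro i hi
      rcases Nat.lt_succ_iff_lt_or_eq.mp hi with hi | rfl
      · rw [Function.update_of_ne (by omega)]
        exact hx i hi
      · rw [Function.update_self, map_add, hw]
        abel
    · obtain ⟨y₁, hy₁⟩ := hz
      obtain ⟨y₂, hy₂⟩ := hwθ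
      refine ⟨fun j => y₁ j + y₂ j, fun i => ?_⟩
      have e1 := hy₁ i
      have e2 := hy₂ i
      rw [Fin.sum_univ_castSucc] at e1 ⊢
      simp only [Fin.snoc_castSucc, Fin.snoc_last] at e1
      simp only [Finset.univ_unique, Finset.sum_singleton] at e2
      have e5 : ∀ j : Fin k, Function.update x k (z + w 0) (j.castSucc : Fin (k + 1)) = x j := by
        intro j
        rw [Fin.val_castSucc, Function.update_of_ne (by have := j.2; omega)]
      simp only [e5, Fin.val_last, Function.update_self, smul_add, Finset.sum_add_distrib]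
      have e3 := congrArg₂ (· + ·) e1 e2
      simp only [add_zero] at e3
      have e4 : w 0 = w default := rfl
      rw [← e3, e4]
      abel)
  refine ⟨x, fun i => (hx (i + 1)).1 i (Nat.lt_succ_self i), ?_⟩
  intro r hr
  rw [LinearMap.mem_ker] at hr ⊢
  obtain ⟨K, hK⟩ : ∃ K, ∀ i ∈ r.support, i < K := by
    refine ⟨r.support.sup id + 1, fun i hi => Nat.lt_succ_of_le (Finset.le_sup (f := id) hi)⟩
  have hsum : ∀ (N : Type u) [AddCommGroup N] [Module R N] (v : ℕ → N),
      Finsupp.linearCombination R v r = ∑ i : Fin K, r i • v i := by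
    intro N _ _ v
    rw [Finsupp.linearCombination_apply, Finsupp.sum,
      Finset.sum_fin_eq_sum_range (fun i : Fin K => r i • v i)]
    rw [← Finset.sum_subset (s₁ := r.support) (s₂ := Finset.range K)
      (fun i hi => Finset.mem_range.mpr (hK i hi)) (by
        intro i hi hi'
        rw [dif_pos (Finset.mem_range.mp hi), Finsupp.notMem_support_iff.mp hi', zero_smul])]
    refine Finset.sum_congr rfl fun i hi => ?_
    rw [dif_pos (hK i hi)]
  rw [hsum] at hr ⊢
  let ψ : PP R K := ⟨0, 1, fun _ i => r i, fun _ i => i.elim0⟩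
  have h1 : ψ.Holds (fun i : Fin K => c i) := ⟨fun i => i.elim0, fun _ => by
    change ∑ i : Fin K, r i • c i + ∑ j : Fin 0, _ = 0
    rw [hr, Finset.univ_eq_empty, Finset.sum_empty, add_zero]⟩
  obtain ⟨y, hy⟩ := hφ' K ψ h1 M _ (hx K).2
  have h2 := hy 0
  change ∑ i : Fin K, r i • x i + ∑ j : Fin 0, _ = 0 at h2
  rwa [Finset.univ_eq_empty (α := Fin 0), Finset.sum_empty, add_zero] at h2

end Pool.Agent.Q11.ML
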