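import Mathlib
import Pool.Agent.Q11.ML.Split

/-!
# Direct sums of countably generated modules
-/

set_option autoImplicit false

universe u

namespace Pool.Agent.Q11.ML

lemma sSupIndep_insert {α : Type*} [CompleteLattice α] [IsModularLattice α] {s : Set α} {a : α}
    (hs : sSupIndep s) (h : Disjoint a (sSup s)) : sSupIndep (insert a s) := by
  intro x hx
  by_cases hxa : x = a
  · subst hxa
    refine h.mono_right (sSup_le_sSup ?_)
    rintro y ⟨hy, hy'⟩
    exact hy.resolve_left hy'
  · have hxs : x ∈ s := hx.resolve_left hxa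
    have h1 : sSup (insert a s \ {x}) ≤ sSup (s \ {x}) ⊔ a := by
      refine sSup_le ?_
      rintro y ⟨hy, hy'⟩
      rcases hy with rfl | hy
      · exact le_sup_right
      · exact (le_sSup (show y ∈ s \ {x} from ⟨hy, hy'⟩)).trans le_sup_left
    refine Disjoint.mono_right h1 ?_
    refine (hs hxs).disjoint_sup_right_of_disjoint_sup_left ?_
    refine h.symm.mono_left (sup_le (le_sSup hxs) (sSup_le_sSup Set.sdiff_subset))

variable {R : Type u} [Ring R] {M : Type u} [AddCommGroup M] [Module R M]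

lemma isPure_bot : IsPure (⊥ : Submodule R M) := by
  intro k m B y hy
  refine ⟨fun _ => 0, fun _ => Submodule.zero_mem _, fun i => ?_⟩
  have := hy i
  rw [Submodule.mem_bot] at this
  rw [this]
  simp

lemma isPure_comap {P : Submodule R M} (hP : IsPure P) {Q : Submodule R (M ⧸ P)} (hQ : IsPure Q) :
    IsPure (Q.comap P.mkQ) := by
  intro k m B y hy
  obtain ⟨z, hz, hz'⟩ := hQ k m B (fun j => P.mkQ (y j)) (by
    intro i
    have := hy i
    rw [Submodule.mem_comap, map_sum] at this
    simpa only [map_smul] using this)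
  choose z' hz'' using fun j => P.mkQ_surjective (z j)
  obtain ⟨w, hw, hw'⟩ := hP k m B (fun j => z' j - y j) (by
    intro i
    rw [← Submodule.ker_mkQ P, LinearMap.mem_ker, map_sum]
    simp only [map_smul, map_sub, hz'', smul_sub, Finset.sum_sub_distrib]
    rw [hz' i, sub_self])
  refine ⟨fun j => z' j - w j, fun j => ?_, fun i => ?_⟩
  · rw [Submodule.mem_comap, map_sub, hz'']
    have : P.mkQ (w j) = 0 := by rw [← LinearMap.mem_ker, Submodule.ker_mkQ]; exact hw j
    rw [this, sub_zero]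
    exact hz j
  · have := hw' i
    simp only [smul_sub, Finset.sum_sub_distrib] at this ⊢
    rw [this]
    abel

lemma isPure_sSup_of_directed {c : Set (Set (Submodule R M))} (hne : c.Nonempty)
    (hc : DirectedOn (· ⊆ ·) c) (hP : ∀ s ∈ c, IsPure (sSup s)) : IsPure (sSup (⋃₀ c)) := by
  have hmem : ∀ v, v ∈ sSup (⋃₀ c) → ∃ s ∈ c, v ∈ sSup s := by
    intro v hv
    have e : sSup (⋃₀ c) = sSup (sSup '' c) := by
      apply le_antisymm
      · refine sSup_le ?_
        rintro N ⟨s, hs, hN⟩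
        exact (le_sSup hN).trans (le_sSup ⟨s, hs, rfl⟩)
      · refine sSup_le ?_
        rintro _ ⟨s, hs, rfl⟩
        exact sSup_le_sSup (Set.subset_sUnion_of_mem hs)
    rw [e, Submodule.mem_sSup_of_directed (hne.image _)] at hv
    · obtain ⟨_, ⟨s, hs, rfl⟩, hv⟩ := hv
      exact ⟨s, hs, hv⟩
    · rintro _ ⟨s, hs, rfl⟩ _ ⟨t, ht, rfl⟩
      obtain ⟨r, hr, h1, h2⟩ := hc s hs t ht
      exact ⟨sSup r, ⟨r, hr, rfl⟩, sSup_le_sSup h1, sSup_le_sSup h2⟩
  intro k m B y hy
  choose s hs hsy using fun i => hmem _ (hy i)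
  -- one member of the chain containing all right hand sides
  have hub : ∃ t ∈ c, ∀ i, s i ⊆ t := by
    have : ∀ F : Finset (Fin k), ∃ t ∈ c, ∀ i ∈ F, s i ⊆ t := by
      classical
      intro F
      induction F using Finset.induction_on with
      | empty => exact ⟨hne.some, hne.some_mem, fun i hi => absurd hi (Finset.notMem_empty i)⟩
      | insert a F _ ih =>
        obtain ⟨t, ht, hF⟩ := ih
        obtain ⟨r, hr, h1, h2⟩ := hc t ht (s a) (hs a)
        refine ⟨r, hr, fun i hi => ?_⟩
        rcases Finset.mem_insert.mp hi with rfl | hi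
        · exact h2
        · exact (hF i hi).trans h1
    obtain ⟨t, ht, h⟩ := this Finset.univ
    exact ⟨t, ht, fun i => h i (Finset.mem_univ i)⟩
  obtain ⟨t, ht, hst⟩ := hub
  obtain ⟨z, hz, hz'⟩ := hP t ht k m B y (fun i => sSup_le_sSup (hst i) (hsy i))
  exact ⟨z, fun j => sSup_le_sSup (Set.subset_sUnion_of_mem ht) (hz j), hz'⟩

/-- If all pure quotients of `M` are Mittag-Leffler, then `M` is a direct sum of countably
generated submodules. -/
theorem exists_decomposition (hM : ∀ P : Submodule R M, IsPure P → IsML R (M ⧸ P)) :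
    ∃ 𝒮 : Set (Submodule R M), sSupIndep 𝒮 ∧ (∀ N ∈ 𝒮, IsCG N) ∧ sSup 𝒮 = ⊤ := by
  classical
  let T : Set (Set (Submodule R M)) :=
    {s | sSupIndep s ∧ (∀ N ∈ s, IsCG N) ∧ IsPure (sSup s)}
  obtain ⟨𝒮, h𝒮⟩ : ∃ 𝒮, Maximal (· ∈ T) 𝒮 := by
    apply zorn_subset
    intro c hcT hc
    rcases c.eq_empty_or_nonempty with rfl | hne
    · refine ⟨∅, ⟨?_, ?_, ?_⟩, fun s hs => absurd hs (Set.notMem_empty s)⟩
      · intro x hx; exact absurd hx (Set.notMem_empty x)
      · intro N hN; exact absurd hN (Set.notMem_empty N)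
      · rw [sSup_empty]; exact isPure_bot
    · have hd : DirectedOn (· ⊆ ·) c := hc.directedOn
      refine ⟨⋃₀ c, ⟨?_, ?_, ?_⟩, fun s hs => Set.subset_sUnion_of_mem hs⟩
      · exact iSupIndep_sUnion_of_directed hd (fun s hs => (hcT hs).1)
      · rintro N ⟨s, hs, hN⟩
        exact (hcT hs).2.1 N hN
      · exact isPure_sSup_of_directed hne hd (fun s hs => (hcT hs).2.2)
  obtain ⟨hind, hcg, hpure⟩ := h𝒮.prop
  refine ⟨𝒮, hind, hcg, ?_⟩
  by_contra hne
  set P := sSup 𝒮 with hP
  obtain ⟨v, hv⟩ : ∃ v, v ∉ P := by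
    by_contra hcon
    push Not at hcon
    exact hne (eq_top_iff.mpr fun x _ => hcon x)
  have hML := hM P hpure
  obtain ⟨Q, hvQ, hQ, c, hc⟩ := exists_pure hML (S := {P.mkQ v}) (Set.countable_singleton _)
  obtain ⟨x, hx, hker⟩ := exists_section hpure hML c
  set N := Submodule.span R (Set.range x) with hN
  have hNmem : ∀ w ∈ N, ∃ r, Finsupp.linearCombination R x r = w := by
    intro w hw
    rw [hN, ← Finsupp.range_linearCombination] at hw
    exact hw
  have hQmem : ∀ w ∈ Q, ∃ r, Finsupp.linearCombination R c r = w := by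
    intro w hw
    rw [← hc, ← Finsupp.range_linearCombination] at hw
    exact hw
  have hpx : ∀ r : ℕ →₀ R, P.mkQ (Finsupp.linearCombination R x r) =
      Finsupp.linearCombination R c r := by
    intro r
    rw [Finsupp.linearCombination_apply, Finsupp.linearCombination_apply, Finsupp.sum, Finsupp.sum,
      map_sum]
    refine Finset.sum_congr rfl fun i _ => ?_
    rw [map_smul, hx]
  have hdisj : Disjoint N P := by
    rw [Submodule.disjoint_def]
    intro w hw hwP
    obtain ⟨r, rfl⟩ := hNmem w hw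
    have h1 : P.mkQ (Finsupp.linearCombination R x r) = 0 := by
      rw [← LinearMap.mem_ker, Submodule.ker_mkQ]; exact hwP
    rw [hpx] at h1
    exact hker h1
  have hsup : N ⊔ P = Q.comap P.mkQ := by
    apply le_antisymm
    · refine sup_le ?_ ?_
      · intro w hw
        obtain ⟨r, rfl⟩ := hNmem w hw
        rw [Submodule.mem_comap, hpx, ← hc, ← Finsupp.range_linearCombination]
        exact ⟨r, rfl⟩
      · intro w hw
        have h1 : P.mkQ w = 0 := by rw [← LinearMap.mem_ker, Submodule.ker_mkQ]; exact hw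
        rw [Submodule.mem_comap, h1]
        exact Q.zero_mem
    · intro w hw
      rw [Submodule.mem_comap] at hw
      obtain ⟨r, hr⟩ := hQmem _ hw
      have h1 : w - Finsupp.linearCombination R x r ∈ P := by
        rw [← Submodule.ker_mkQ P, LinearMap.mem_ker, map_sub, hpx, hr, sub_self]
      rw [Submodule.mem_sup]
      refine ⟨Finsupp.linearCombination R x r, ?_, _, h1, by abel⟩
      rw [hN, ← Finsupp.range_linearCombination]
      exact ⟨r, rfl⟩
  have hnew : insert N 𝒮 ∈ T := by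
    refine ⟨sSupIndep_insert hind hdisj, ?_, ?_⟩
    · rintro N' (rfl | hN')
      · exact ⟨Set.range x, Set.countable_range x, rfl⟩
      · exact hcg N' hN'
    · rw [sSup_insert, ← hP, hsup]
      exact isPure_comap hpure hQ
  have hle := h𝒮.le_of_ge hnew (Set.subset_insert N 𝒮)
  have hN𝒮 : N ∈ 𝒮 := hle (Set.mem_insert N 𝒮)
  have hNP : N ≤ P := le_sSup hN𝒮
  apply hv
  have h1 : v ∈ Q.comap P.mkQ := hvQ rfl
  rw [← hsup, sup_eq_right.mpr hNP] at h1
  exact h1

variable {𝒜 : ModuleCat.{u} R → Prop}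

theorem main (hfp : ∀ A, 𝒜 A → Module.FinitePresentation R A)
    (hML : ∀ M : ModuleCat.{u} R, InLim 𝒜 M → IsML R M) (hM : InLim 𝒜 M) :
    ∃ 𝒮 : Set (Submodule R M), sSupIndep 𝒮 ∧ (∀ N ∈ 𝒮, IsCG N) ∧ sSup 𝒮 = ⊤ :=
  exists_decomposition fun _ hP => isML_of_FC hfp hML ((fc_of_inLim hM).quot hP)

end Pool.Agent.Q11.ML
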